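import Pool.Agent.Helper18.EW.Goals2
import Pool.Agent.Helper49.Gm.F2

/-!
# Packet EW-Tri: from the game to the triangle
-/

set_option autoImplicit false

namespace Pool.Agent.Helper87.EW

open Finset
open Pool.Agent.Helper18.EW
open Pool.Agent.Helper43.Hw (T na va lz Play GoalH2 T_choose)
open Pool.Agent.Helper43.Gm (st mv nn Pri)
open Pool.Agent.Lead.Sh
open Pool.Agent.Helper18.SG (sig rl GoalS GoalA2 GoalF1)

theorem sum_comb (μ R N K τ s : ℕ) (κ x e P : ℕ → ℕ) (z : ℕ) :
    ∑ c ∈ range (N + K), comb μ R N τ s κ x e P c z =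
      lz μ R N κ x z + gV μ R K τ s e P z := by
  rw [Finset.sum_range_add]
  unfold lz gV
  congr 1
  · refine sum_congr rfl fun c hc => ?_
    rw [mem_range] at hc
    unfold comb
    rw [if_pos hc]
  · refine sum_congr rfl fun i _ => ?_
    unfold comb
    rw [if_neg (by omega), Nat.add_sub_cancel_left]

/-- A subset with prescribed row sizes. -/
theorem rows_subset (R : ℕ) (D : Finset (ℕ × ℕ)) (f : ℕ → ℕ)
    (h : ∀ y < R, f y ≤ (D.filter (fun d => d.2 = y)).card) :
    ∃ D' ⊆ D, (∀ y < R, (D'.filter (fun d => d.2 = y)).card = f y) ∧ (∀ d ∈ D', d.2 < R) ∧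
      D'.card = ∑ y ∈ range R, f y := by
  classical
  have h1 : ∀ y, ∃ S : Finset (ℕ × ℕ), y < R → S ⊆ D.filter (fun d => d.2 = y) ∧ S.card = f y := by
    intro y
    by_cases hy : y < R
    · obtain ⟨S, hS, hc⟩ := Finset.exists_subset_card_eq (h y hy)
      exact ⟨S, fun _ => ⟨hS, hc⟩⟩
    · exact ⟨∅, fun h => absurd h hy⟩
  choose S hS using h1
  have hrow : ∀ y < R, ∀ d ∈ S y, d ∈ D ∧ d.2 = y := by
    intro y hy d hd
    have := (hS y hy).1 hd
    rw [mem_filter] at this
    exact this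
  have hfil : ∀ y < R, ((range R).biUnion S).filter (fun d => d.2 = y) = S y := by
    intro y hy
    ext d
    rw [mem_filter, mem_biUnion]
    constructor
    · rintro ⟨⟨z, hz, hd⟩, h2⟩
      rw [mem_range] at hz
      have := (hrow z hz d hd).2
      have : z = y := by omega
      rw [← this]
      exact hd
    · intro hd
      exact ⟨⟨y, mem_range.2 hy, hd⟩, (hrow y hy d hd).2⟩
  have hlt : ∀ d ∈ (range R).biUnion S, d.2 < R := by
    intro d hd
    rw [mem_biUnion] at hd
    obtain ⟨y, hy, hd⟩ := hd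
    rw [mem_range] at hy
    rw [(hrow y hy d hd).2]
    exact hy
  refine ⟨(range R).biUnion S, ?_, ?_, hlt, ?_⟩
  · intro d hd
    rw [mem_biUnion] at hd
    obtain ⟨y, hy, hd⟩ := hd
    exact (hrow y (mem_range.1 hy) d hd).1
  · intro y hy
    rw [hfil y hy]
    exact (hS y hy).2
  · rw [Finset.card_eq_sum_card_fiberwise (f := fun d : ℕ × ℕ => d.2) (t := range R)
      (fun d hd => mem_coe.2 (mem_range.2 (hlt d (mem_coe.1 hd))))]
    refine sum_congr rfl fun y hy => ?_
    rw [mem_range] at hy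
    rw [hfil y hy]
    exact (hS y hy).2

theorem goalTri (h2 : GoalH2) : GoalTri := by
  intro hS hA2 hF1 hPG hG2 hSI p d μ N K τ s E κ x e P hp hμ hR hP hG hpa hk1 hk2
  obtain ⟨f1, f2, f3, -, -, -⟩ := hF1 p d hp
  obtain ⟨π, ε, hpri⟩ := hPG μ (d / p + 1) N K τ s E κ x e P hμ hR hP hG hpa hk1 hk2
  have hrev := Pool.Agent.Helper43.Gm.PkF2.pri_rev _ _ _ _ _ _ hpri
  constructor
  · intro h
    have h1 : Inj ((triD 0 d).image (sig p)) (rows (fun _ => μ) (range (N + K))) := by
      refine hA2 (d / p + 1) _ (N + K) _ _ _ _ f2 hrev ?_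
      intro y hy
      rw [f3 y hy, sum_comb, show d / p + 1 - 1 - y = d / p - y by omega]
      exact h (d / p - y) (by omega)
    exact hS p (triD 0 d) _ _ hp f1 h1
  · intro h
    obtain ⟨D2, hD2, c1, c2, c3⟩ := rows_subset (d / p + 1) ((triD 0 d).image (sig p))
      (fun y => ∑ c ∈ range (N + K), comb μ (d / p + 1) N τ s κ x e P c (d / p + 1 - 1 - y)) (by
        intro y hy
        rw [f3 y hy, sum_comb, show d / p + 1 - 1 - y = d / p - y by omega]
        exact h (d / p - y) (by omega))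
    have h1 : Inj D2 (rows (fun _ => μ) (range (N + K))) := by
      refine hA2 (d / p + 1) _ (N + K) _ _ _ _ c2 hrev ?_
      intro y hy
      exact (c1 y hy).le
    have hcard : (rows (fun _ => μ) (range (N + K))).card = D2.card := by
      have e1 : ∑ y ∈ range (d / p + 1),
          ∑ c ∈ range (N + K), comb μ (d / p + 1) N τ s κ x e P c (d / p + 1 - 1 - y) =
          ∑ y ∈ range (d / p + 1),
          ∑ c ∈ range (N + K), comb μ (d / p + 1) N τ s κ x e P c y :=
        sum_range_reflect (fun y => ∑ c ∈ range (N + K), comb μ (d / p + 1) N τ s κ x e P c y)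
          (d / p + 1)
      have e2 := (h2 μ (d / p + 1) N κ x hμ hR hP).2.2.2
      have e3 := (hG2 μ (d / p + 1) K τ s E e P hμ hG).1.2.2.2
      rw [c3, card_rows, e1]
      simp only [sum_comb]
      rw [sum_add_distrib, e2, e3, sum_const, card_range, smul_eq_mul, T_choose]
      ring
    obtain ⟨Q, hQ⟩ := h1
    have hInd : Ind D2 (rows (fun _ => μ) (range (N + K))) := ⟨Q, hQ.ind hcard⟩
    exact hSI p (triD 0 d) _ _ hS hp f1 (hInd.mono hD2 subset_rfl)

end Pool.Agent.Helper87.EW
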