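import Pool.Agent.Helper18.EW.Goals
import Pool.Agent.Helper62.Hw.H4

/-!
# Packet EW-E1: the play until the row `J`
-/

set_option autoImplicit false

namespace Pool.Agent.Helper87.EW

open Finset
open Pool.Agent.Helper18.EW
open Pool.Agent.Helper43.Hw (T na va lz Play aa ac sc oo sk U Dd Sd Pn nx bb np GoalH1 GoalH2 GoalH4
  T_mono two_T T_succ T_zero)
open Pool.Agent.Helper43.Gm (st mv nn)

variable {μ R N : ℕ} {κ x : ℕ → ℕ}

/-- The load of the row `0`. -/
theorem lz_zero (hR : μ + 2 ≤ R) (hκ : κ 0 < N) : lz μ R N κ x 0 = κ 0 * μ + x 0 := by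
  rw [Pool.Agent.Helper43.Hw.PkH4.lz_lt hκ]
  have h1 : ∑ c ∈ range (κ 0), va μ R κ x c 0 = κ 0 * μ := by
    rw [← smul_eq_mul, ← card_range (κ 0), ← sum_const, card_range]
    refine sum_congr rfl fun c hc => ?_
    rw [mem_range] at hc
    unfold va nn st mv
    rw [if_neg (by omega), if_neg (by omega), if_neg (by omega)]
    simp
  have h2 : na μ R 0 = 0 := by unfold na; omega
  rw [h1, h2, mul_zero, add_zero]

theorem va_le {c z : ℕ} (h : c < κ z) : va μ R κ x c z ≤ μ := by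
  unfold va nn
  rw [if_neg (by omega), if_neg (by omega), if_neg (by omega)]
  exact (Nat.sub_le _ _).trans (Nat.sub_le _ _)

/-- What an old point gives from the row `r` on. -/
theorem tail_va (h1 : GoalH1) (hμ : 1 ≤ μ) (hR : μ + 2 ≤ R) (hP : Play μ R N κ x) :
    ∀ m r, r + m = R → ∀ c, c < κ r → ∑ z ∈ Ico r R, va μ R κ x c z ≤ T (va μ R κ x c r) := by
  have h7 := (h1 μ R N κ x hμ hR hP).2.2.2.2.2.2
  have hT : ∀ v, v ≤ T v := by
    intro v
    have := two_T v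
    nlinarith
  intro m
  induction m with
  | zero =>
    intro r hr c hc
    have : r = R := by omega
    subst this
    simp
  | succ m ih =>
    intro r hr c hc
    rw [Finset.sum_eq_sum_Ico_succ_bot (by omega : r < R)]
    by_cases hrR : r + 1 = R
    · rw [hrR]
      simp only [Ico_self, sum_empty, add_zero]
      exact hT _
    · have hrR' : r + 1 < R := by omega
      have hc' : c < κ (r + 1) := lt_of_lt_of_le hc (hP.mono r hrR')
      have ih' := ih (r + 1) (by omega) c hc'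
      obtain ⟨a, b⟩ := h7 r hrR' c hc
      rcases Nat.eq_zero_or_pos (va μ R κ x c r) with h0 | h0
      · rw [(b h0).1, T_zero] at ih'
        rw [h0]
        omega
      · have ha := a h0
        obtain ⟨v, hv⟩ : ∃ v, va μ R κ x c r = v + 1 := ⟨va μ R κ x c r - 1, by omega⟩
        rw [hv, T_succ]
        have : T (va μ R κ x c (r + 1)) ≤ T v := T_mono (by omega)
        omega

/-- The loads from the row `r` on, if all the points are old at `r`. -/
theorem tail_lz (h1 : GoalH1) (hμ : 1 ≤ μ) (hR : μ + 2 ≤ R) (hP : Play μ R N κ x) {r : ℕ}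
    (hr : r < R) (hκ : κ r = N) :
    2 * ∑ z ∈ Ico r R, lz μ R N κ x z ≤ (μ + 1) * lz μ R N κ x r := by
  unfold lz
  rw [sum_comm, mul_sum, mul_sum]
  refine sum_le_sum fun c hc => ?_
  rw [mem_range] at hc
  have h := tail_va h1 hμ hR hP (R - r) r (by omega) c (by omega)
  have h2 := two_T (va μ R κ x c r)
  have h3 : va μ R κ x c r ≤ μ := va_le (by omega)
  calc 2 * ∑ z ∈ Ico r R, va μ R κ x c z ≤ 2 * T (va μ R κ x c r) := by omega
    _ = va μ R κ x c r * (va μ R κ x c r + 1) := h2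
    _ ≤ va μ R κ x c r * (μ + 1) := Nat.mul_le_mul le_rfl (by omega)
    _ = (μ + 1) * va μ R κ x c r := mul_comm _ _

section len

variable {β : ℕ} {ℓ : ℕ → ℕ}

theorem len_mono (hL : Len R β ℓ) : ∀ m a, a + m < R → ℓ a ≤ ℓ (a + m) := by
  intro m
  induction m with
  | zero => intro a _; exact le_rfl
  | succ m ih =>
    intro a ha
    refine (ih a (by omega)).trans ?_
    rcases Nat.eq_zero_or_pos (a + m) with h | h
    · have h1 : a = 0 := by omega
      have h2 : m = 0 := by omega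
      subst h1; subst h2
      exact hL.z1.le
    · have := hL.st (a + m) h (by omega)
      have e : a + (m + 1) = a + m + 1 := by ring
      rw [e, this]
      omega

theorem len_step (hL : Len R β ℓ) {y : ℕ} (hy : y + 1 < R) : ℓ y + 1 ≤ ℓ (y + 1) := by
  rcases Nat.eq_zero_or_pos y with h | h
  · subst h
    exact hL.z1
  · rw [hL.st y h hy]
    have := hL.b1
    omega

/-- The lengths of the last rows. -/
theorem len_tail (hL : Len R β ℓ) {r J : ℕ} (hr : r ≤ J) (hJ : J + μ + 1 = R) :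
    (μ + 1) * ℓ J ≤ ∑ z ∈ Ico r R, ℓ z := by
  have h1 : ∑ z ∈ Ico J R, ℓ z ≤ ∑ z ∈ Ico r R, ℓ z :=
    sum_le_sum_of_subset (Ico_subset_Ico hr le_rfl)
  refine le_trans ?_ h1
  have h2 : ∑ z ∈ Ico J R, ℓ J ≤ ∑ z ∈ Ico J R, ℓ z := by
    refine sum_le_sum fun z hz => ?_
    rw [mem_Ico] at hz
    have := len_mono hL (z - J) J (by omega)
    rwa [show J + (z - J) = z by omega] at this
  rw [sum_const, Nat.card_Ico, smul_eq_mul] at h2
  rwa [show R - J = μ + 1 by omega] at h2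

end len

theorem goalE1 (h1 : GoalH1) (h2 : GoalH2) (h4 : GoalH4) (h5 : GoalE5) : GoalE1 := by
  intro μ R N K b l Lg q β ℓ W hpar hlen hlo hhi hsum hW
  obtain ⟨hl, hR1, hL1, hqL, hK, hb1, hb2, hhL⟩ := hpar
  have hb0 : 1 ≤ b := by nlinarith
  have hbl : 1 ≤ b * l := Nat.one_le_iff_ne_zero.2 (by positivity)
  -- `2 ^ 31 K l ≤ μ`
  have hKl : 2 ^ 31 * (K * l) ≤ μ := by
    refine le_trans ?_ hb2
    rw [hK]
    have : q + 1 ≤ (q + 1) ^ 2 := by nlinarith
    calc 2 ^ 31 * (b * (q + 1) * l) = 2 ^ 31 * b * (q + 1) * l := by ring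
      _ ≤ 2 ^ 31 * b * (q + 1) ^ 2 * l := by gcongr
  have hμ : 1 ≤ μ := by
    refine le_trans ?_ hb2
    have : 0 < 2 ^ 31 * b * (q + 1) ^ 2 * l := by positivity
    omega
  have hR : μ + 2 ≤ R := by omega
  obtain ⟨J, hJ⟩ : ∃ J, J + μ + 1 = R := ⟨R - 1 - μ, by omega⟩
  have hJR : R - 1 - μ = J := by omega
  have hJ1 : 1 ≤ J := by omega
  -- `2 μ^2 ≤ l ℓ J`
  have hlJ : 2 * μ ^ 2 ≤ l * ℓ J := by
    have a1 := hlen.lo J hJ1 (by omega)
    have a2 : β * R + β ≤ β * (2 * J) := by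
      have : R + 1 ≤ 2 * J := by omega
      calc β * R + β = β * (R + 1) := by ring
        _ ≤ β * (2 * J) := Nat.mul_le_mul le_rfl this
    have a3 : β * R ≤ 2 * ℓ J := by omega
    have a4 : l * (β * R) ≤ l * (2 * ℓ J) := Nat.mul_le_mul le_rfl a3
    nlinarith
  have hT2 := two_T μ
  -- integer versions
  have iT : (2 : ℤ) * T μ = μ * (μ + 1) := by exact_mod_cast hT2
  have ilJ : (2 : ℤ) * μ ^ 2 ≤ l * ℓ J := by exact_mod_cast hlJ
  have iKl : (2 : ℤ) ^ 31 * (K * l) ≤ μ := by exact_mod_cast hKl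
  have iμ : (1 : ℤ) ≤ μ := by exact_mod_cast hμ
  have il : (1 : ℤ) ≤ l := by exact_mod_cast hl
  have iK0 : (0 : ℤ) ≤ (K : ℤ) * l := by positivity
  have hWabs := abs_nonneg W
  -- `l * (K μ (μ+1) + 2 |W|) < μ^2 (μ+1)`
  have hsmall : (l : ℤ) * (K * (μ * (μ + 1)) + 2 * |W|) < μ ^ 2 * (μ + 1) := by
    have b1 : (2 : ℤ) ^ 31 * ((K * l) * (μ * (μ + 1))) ≤ μ * (μ * (μ + 1)) := by
      have : (0 : ℤ) ≤ (μ : ℤ) * (μ + 1) := by positivity
      calc (2 : ℤ) ^ 31 * ((K * l) * (μ * (μ + 1))) = (2 ^ 31 * (K * l)) * (μ * (μ + 1)) := by ring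
        _ ≤ (μ : ℤ) * (μ * (μ + 1)) := mul_le_mul_of_nonneg_right iKl this
    have b2 : (0 : ℤ) < (μ : ℤ) ^ 2 := by positivity
    have b3 : (μ : ℤ) * (μ * (μ + 1)) = μ ^ 3 + μ ^ 2 := by ring
    have b4 : (μ : ℤ) ^ 2 * (μ + 1) = μ ^ 3 + μ ^ 2 := by ring
    have b5 : (l : ℤ) * (K * (μ * (μ + 1)) + 2 * |W|) =
      (K * l) * (μ * (μ + 1)) + 2 * (l * |W|) := by ring
    have b6 : (2 : ℤ) ^ 10 * (l * |W|) ≤ μ ^ 3 := by
      calc (2 : ℤ) ^ 10 * (l * |W|) = 2 ^ 10 * l * |W| := by ring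
        _ ≤ (μ : ℤ) ^ 3 := hW
    rw [b4, b5]
    rw [b3] at b1
    have b7 : (0 : ℤ) < (μ : ℤ) ^ 3 := by positivity
    have b8 : (0 : ℤ) ≤ (l : ℤ) * |W| := by positivity
    omega
  have hWle : W ≤ |W| := le_abs_self W
  have hWle' : -W ≤ |W| := neg_le_abs W
  -- the contradiction: `(μ + 1) ℓ J ≤ 2 K T + 2 W` is impossible
  have hcontra : ¬ (((μ : ℤ) + 1) * ℓ J ≤ 2 * (K * T μ) + 2 * W) := by
    intro hc
    have c1 : (l : ℤ) * ((μ + 1) * ℓ J) ≤ l * (2 * (K * T μ) + 2 * |W|) := by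
      apply mul_le_mul_of_nonneg_left _ (by positivity)
      linarith
    have c2 : (l : ℤ) * (2 * (K * T μ) + 2 * |W|) = l * (K * (μ * (μ + 1)) + 2 * |W|) := by
      rw [← iT]; ring
    have c3 : (2 * (μ : ℤ) ^ 2) * (μ + 1) ≤ (l * ℓ J) * (μ + 1) :=
      mul_le_mul_of_nonneg_right ilJ (by positivity)
    have c4 : (0 : ℤ) ≤ (μ : ℤ) ^ 2 * (μ + 1) := by positivity
    rw [c2] at c1
    nlinarith
  -- the first row
  have hN0 : ℓ 0 / μ < N := by
    by_contra hcon
    push Not at hcon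
    have d1 : N * μ ≤ ℓ 0 := by
      calc N * μ ≤ ℓ 0 / μ * μ := Nat.mul_le_mul hcon le_rfl
        _ ≤ ℓ 0 := Nat.div_mul_le_self _ _
    have d2 : 100 * (l * (N * μ)) ≤ 8 * μ ^ 2 := by
      calc 100 * (l * (N * μ)) = l * (100 * (N * μ)) := by ring
        _ ≤ l * (100 * ℓ 0) := Nat.mul_le_mul le_rfl (Nat.mul_le_mul le_rfl d1)
        _ ≤ l * (β * R) := Nat.mul_le_mul le_rfl hlen.z0
        _ ≤ 8 * μ ^ 2 := hhi
    have d5 := len_tail (μ := μ) hlen (Nat.zero_le J) hJ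
    rw [Nat.Ico_zero_eq_range] at d5
    have d6 : ((μ : ℤ) + 1) * ℓ J ≤ (N + K) * T μ + W := by
      rw [← hsum]
      exact_mod_cast d5
    have d7 : (100 : ℤ) * (l * (N * μ)) ≤ 8 * μ ^ 2 := by
      exact_mod_cast d2
    have c3 : (2 * (μ : ℤ) ^ 2) * (μ + 1) ≤ (l * ℓ J) * (μ + 1) :=
      mul_le_mul_of_nonneg_right ilJ (by positivity)
    have c5 : (l : ℤ) * (2 * ((μ + 1) * ℓ J)) ≤ l * (2 * ((N + K) * T μ + |W|)) := by
      apply mul_le_mul_of_nonneg_left _ (by positivity)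
      linarith
    have c6 : (l : ℤ) * (2 * ((N + K) * T μ + |W|)) =
        (l * (N * μ)) * (μ + 1) + l * (K * (μ * (μ + 1)) + 2 * |W|) := by
      have : (l : ℤ) * (2 * ((N + K) * T μ + |W|)) =
        l * ((N + K) * (2 * T μ) + 2 * |W|) := by ring
      rw [this, iT]
      ring
    rw [c6] at c5
    have c7 : (100 : ℤ) * ((l * (N * μ)) * (μ + 1)) ≤ 8 * (μ ^ 2 * (μ + 1)) := by
      calc (100 : ℤ) * ((l * (N * μ)) * (μ + 1)) = (100 * (l * (N * μ))) * (μ + 1) := by ring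
        _ ≤ (8 * (μ : ℤ) ^ 2) * (μ + 1) := mul_le_mul_of_nonneg_right d7 (by positivity)
        _ = 8 * (μ ^ 2 * (μ + 1)) := by ring
    have c9 : (0 : ℤ) < (μ : ℤ) ^ 2 * (μ + 1) := by positivity
    have c10 : (l : ℤ) * (2 * ((μ + 1) * ℓ J)) = 2 * ((l * ℓ J) * (μ + 1)) := by ring
    have c11 : (2 * (μ : ℤ) ^ 2) * (μ + 1) = 2 * (μ ^ 2 * (μ + 1)) := by ring
    rw [c10] at c5
    rw [c11] at c3
    linarith
  have hpre : Pre μ R N 0 (fun _ => ℓ 0 / μ) (fun _ => ℓ 0 % μ) := by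
    refine ⟨?_, ?_, ?_, ?_, ?_, ?_⟩
    · intro y hy; omega
    · intro y _; exact hN0.le
    · intro y _; exact Nat.mod_lt _ hμ
    · intro y hy _
      have : y = 0 := by omega
      subst this
      have : na μ R 0 = 0 := by unfold na; omega
      rw [this]
      exact Nat.zero_le _
    · intro y _ h
      exact absurd h hN0.ne
    · intro y hy; omega
  obtain ⟨κ, x, hbeg, hP, hG⟩ := h5 μ R N 0 ℓ _ _ hμ hR (by omega) hpre
  have hκ0 : κ 0 = ℓ 0 / μ := (hbeg 0 le_rfl).1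
  have hx0 : x 0 = ℓ 0 % μ := (hbeg 0 le_rfl).2
  have hlz0 : lz μ R N κ x 0 = ℓ 0 := by
    rw [lz_zero hR (by rw [hκ0]; exact hN0), hκ0, hx0]
    exact Nat.div_add_mod' _ _
  refine ⟨κ, x, hP, ?_⟩
  rw [hJR]
  -- no row `r ≤ J` with `κ r = N`
  have hno : ∀ r ≤ J, κ r = N → (∀ z < r, lz μ R N κ x z = ℓ z) → lz μ R N κ x r ≤ ℓ r →
      False := by
    intro r hr hκr hbefore hr'
    have t1 := tail_lz h1 hμ hR hP (by omega : r < R) hκr
    have t2 := (h2 μ R N κ x hμ hR hP).2.2.2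
    rw [← sum_range_add_sum_Ico _ (by omega : r ≤ R)] at t2
    have t3 : ∑ z ∈ range r, lz μ R N κ x z = ∑ z ∈ range r, ℓ z :=
      sum_congr rfl fun z hz => hbefore z (mem_range.1 hz)
    have t4 : ∑ z ∈ range R, ℓ z = ∑ z ∈ range r, ℓ z + ∑ z ∈ Ico r R, ℓ z :=
      (sum_range_add_sum_Ico _ (by omega : r ≤ R)).symm
    have t5 := len_tail (μ := μ) hlen hr hJ
    have t6 : ℓ r ≤ ℓ J := by
      have := len_mono hlen (J - r) r (by omega)
      rwa [show r + (J - r) = J by omega] at this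
    have t7 : (μ + 1) * lz μ R N κ x r ≤ (μ + 1) * ℓ J :=
      Nat.mul_le_mul le_rfl (hr'.trans t6)
    apply hcontra
    rw [t3] at t2
    have hsum' : ((∑ z ∈ range R, ℓ z : ℕ) : ℤ) = (N + K) * T μ + W := by
      rw [← hsum]; push_cast; rfl
    rw [t4] at hsum'
    zify at t1 t2 t5 t7
    push_cast at hsum'
    nlinarith
  -- the induction
  have hind : ∀ y ≤ J, κ y < N ∧ ∀ z ≤ y, lz μ R N κ x z = ℓ z := by
    intro y
    induction y with
    | zero =>
      intro _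
      refine ⟨by rw [hκ0]; exact hN0, ?_⟩
      intro z hz
      rw [Nat.le_zero.1 hz]
      exact hlz0
    | succ y ih =>
      intro hy
      obtain ⟨hκy, hex⟩ := ih (by omega)
      have hyR : y + 1 < R := by omega
      have g4 := (h4 μ R N κ x hμ hR hP y hyR).2.2.2.1 hκy
      have n0 : na μ R y = 0 := by unfold na; omega
      have n1 : na μ R (y + 1) = 0 := by unfold na; omega
      have hnx : nx μ R x y ≤ x y + 1 := by
        unfold nx
        split_ifs
        · exact le_rfl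
        · rw [n1]; omega
      rw [n0, n1, mul_zero, hex y le_rfl] at g4
      have hstep := len_step hlen hyR
      have hbb : bb μ R N κ x y ≤ ℓ (y + 1) := by omega
      have hloads : lz μ R N κ x (y + 1) ≤ ℓ (y + 1) ∧
          (κ (y + 1) < N → lz μ R N κ x (y + 1) = ℓ (y + 1)) := by
        rcases hG y (Nat.zero_le _) (by omega) hκy with ⟨e1, e2, -⟩ | ⟨e1, e2⟩
        · refine ⟨by omega, fun _ => by omega⟩
        · rcases e2 with e2 | ⟨e2, e3⟩
          · exact ⟨by omega, fun _ => e2⟩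
          · exact ⟨e3, fun h => by omega⟩
      have hκ1 : κ (y + 1) < N := by
        by_contra hcon
        have hle := hP.le (y + 1) hyR
        exact hno (y + 1) hy (by omega) (fun z hz => hex z (by omega)) hloads.1
      refine ⟨hκ1, fun z hz => ?_⟩
      rcases Nat.lt_or_ge z (y + 1) with h | h
      · exact hex z (by omega)
      · have : z = y + 1 := by omega
        rw [this]
        exact hloads.2 hκ1
  obtain ⟨e1, e2⟩ := hind J le_rfl
  exact ⟨by omega, e1, e2⟩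

end Pool.Agent.Helper87.EW
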